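import Pool.Agent.Y19.QT.ML

/-!
MP_21d687_nt: the Lindelof bound, with powers of logarithms, for almost all quadratic twists, over all
multiquadratic fields and at all points of the critical line.  Assembly of the library project QT.

`K` is a number field of degree `2^n` generated by square roots `x_i` of integers `e_i`
(`Indep e`: they are independent modulo squares; `n = 0` is `K = Q`); `E : y^2 = x^3 + a x + b`,
`E_d : y^2 = x^3 + a d^2 x + b d^3` for squarefree `d` (positive or negative); `F_d = L(E_d/K, s)` is the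
`L`-function without the Euler factors at the places dividing `2 (4a^3 + 27b^2) d e_1 ... e_n`, with
centre `s = 1` (`IsLFunK`).
-/

set_option autoImplicit false

namespace Pool.Agent.Results.MP_21d687_nt.AlmostAllTwists

open Complex NumberField
open Pool.Agent.Y19.QT (Fam TwistsModular Indep IsLFunK sqf)

/-- The Lindelof bound with powers of logarithms for almost all quadratic twists over all
multiquadratic fields, for curves with `j = 0`, `j = 1728`, for the twists of `X_0(11)`, `X_0(14)`, and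
for all curves whose twists over `Q` are modular. -/
theorem result (a b : ℤ) (hab : 4 * a ^ 3 + 27 * b ^ 2 ≠ 0) (h : Fam a b ∨ TwistsModular a b)
    (n : ℕ) (e : Fin n → ℤ) (he : Indep e) (K : Type) [Field K] [NumberField K] (x : Fin n → K)
    (hx : ∀ i, x i ^ 2 = (e i : K)) (hK : IntermediateField.adjoin ℚ (Set.range x) = ⊤) :
    (∀ d : ℤ, Squarefree d → ∃! F : ℂ → ℂ, IsLFunK K (a * d ^ 2) (b * d ^ 3) (∏ i, e i) F) ∧
    ∀ F : ℤ → ℂ → ℂ, (∀ d : ℤ, Squarefree d →
      IsLFunK K (a * d ^ 2) (b * d ^ 3) (∏ i, e i) (F d)) →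
      (∃ (C : ℝ) (A B : ℕ),
        -- the mean value of the maxima, the points `t_d` are arbitrary
        (∀ (X : ℕ) (t : ℤ → ℝ), 3 ≤ X →
          ∑ d ∈ sqf X, ‖F d (1 + t d * I)‖ ^ ((2 : ℝ) / 2 ^ n) / (2 + |t d|) ^ B ≤
            C * X * Real.log X ^ A) ∧
        -- the number of exceptions to the bound with exponent `β`
        ∀ (X : ℕ) (β : ℝ) (S : Finset ℤ), 3 ≤ X → 0 ≤ β → S ⊆ sqf X →
          (∀ d ∈ S, ∃ t : ℝ, (X : ℝ) ^ β * (2 + |t|) ^ B < ‖F d (1 + t * I)‖) →
          (S.card : ℝ) ≤ C * (X : ℝ) ^ (1 - 2 * β / 2 ^ n) * Real.log X ^ A) ∧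
      -- almost all twists, with a power of the logarithm, at all points of the critical line
      ∀ k : ℕ, ∃ (C : ℝ) (k' : ℕ), ∀ (X : ℕ) (S : Finset ℤ), 3 ≤ X → S ⊆ sqf X →
        (∀ d ∈ S, ∃ t : ℝ, (Real.log X * (2 + |t|)) ^ k' < ‖F d (1 + t * I)‖) →
        (S.card : ℝ) ≤ C * X / Real.log X ^ k := by
  rcases h with h | h
  · exact Pool.Agent.Y19.QT.multiLindelof_fam h n e he K x hx hK
  · exact Pool.Agent.Y19.QT.multiLindelof_modular hab h n e he K x hx hK

end Pool.Agent.Results.MP_21d687_nt.AlmostAllTwists
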