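import Pool.Agent.N351.EV.Main

/-!
# The zeros of the L-functions of almost all quadratic twists over multiquadratic fields are evenly distributed

`E : y² = x³ + a x + b` is an elliptic curve over `ℚ`, `K₀ = ℚ(√e_1, …, √e_m)` a fixed multiquadratic
field (for example `K₀ = ℚ`), `K = K₀(√d_1, …, √d_n)` runs through the extensions of degree `2ⁿ` of `K₀`
generated by square roots of squarefree integers `d_i`, `|d_i| ≤ X`, and `E_{d₀}` through the quadratic
twists of `E` by squarefree `d₀`, `|d₀| ≤ X`.  We prove, without any hypothesis, for all `E` with
`j`-invariant `0` or `1728` and for all quadratic twists of `X₀(11)` and `X₀(14)`, and for every elliptic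
curve over `ℚ` whose quadratic twists are modular: for all `k` and `ε > 0`, for all these pairs `(d₀, K)`
except `O(X^(n + 1) / (log X)^k)`, every interval `[u, v]` of length at most `1` and at least
`A (log log X + log (2 + |u|)) / log X`, at any height, contains the imaginary parts of
`2^(m+n) (1 + n/2) (v - u) (log X) / π` zeros of `L(E_{d₀}/K, s)` (with `Re > 3/4`, with multiplicity), up to
a relative error at most `ε`.  So these functions not only have all their zeros near the critical line
(hand-in MultiquadraticZeroDensity), but their zeros are evenly spaced along it at the same scale.

Method.  The base is the family of quadratic twists over `ℚ` with its mollified mean values near the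
critical line, which gives the density theorem (project QT, `Pool.Agent.Y19.QT`), and the sums of sparse
functions over the square classes of products of tuples.  The new step (`Pool.Agent.N351.EV`): for almost
all twists `L` is neither large nor small on the line `Re s = 1 + B (log log X) / log X`, at all heights
(upper bounds from the mean values of `L`, lower bounds from those of `1 - L M` with a mollifier `M`, whose
size is bounded for almost all twists by its own mean values), so a Landau formula, symmetrised by the
functional equation, gives the Poisson integral of the zeros at distance `1 / log X` times a large multiple
of `log log X` from the line, at all heights, with a relative error `ε`, and the number of zeros in the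
windows follows by a count with Poisson kernels.  The Landau formula and this count were proved by
helper490 (`Pool.Agent.N351.EV.Lan`) and helper803 (`Pool.Agent.N351.EV.Cnt`).
-/

set_option autoImplicit false

namespace Pool.Agent.Results.MP_21d687_nt.EvenLaw

open Pool.Agent.Y19.QT Pool.Agent.N351.EV

/-- **Main theorem.** The zeros of the `L`-functions `L(E_{d₀}/K, s)` of almost all quadratic twists of
`E` over multiquadratic fields are evenly distributed at the scale `log log X / log X`
(`MultiEvenLaw`), for `E` with `j`-invariant `0` or `1728`, for the quadratic twists of `X₀(11)` and
`X₀(14)` (`Fam`), and for every `E` all of whose quadratic twists are modular. -/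
theorem result : (∀ a b : ℤ, Fam a b → MultiEvenLaw a b) ∧
    ∀ a b : ℤ, 4 * a ^ 3 + 27 * b ^ 2 ≠ 0 → TwistsModular a b → MultiEvenLaw a b :=
  ⟨fun _ _ h => evenLaw_fam h, fun _ _ hab h => evenLaw_modular hab h⟩

end Pool.Agent.Results.MP_21d687_nt.EvenLaw
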