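import Pool.Agent.N804.GM.All
import Pool.Agent.N804.GM.AllS

/-!
# The Lindelöf bound at the centre for quadratic twists and geometric means

Let `π` be a cuspidal representation of `PGL_2` over a number field `F` and let `D` run through the
square-free integers of `F`.  The L-functions `L(s, π ⊗ χ_D)` are L-functions of degree
`m = 2 [F : ℚ]` over `ℚ` (conductor `N`, archimedean parameters `mu j`, factor at infinity
`∏ j, Γ_ℝ (s - mu j)`) whose analytic conductors lie between two fixed powers of `|D|` (up to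
constants).  The theorem is stated for every family of L-functions of degree `m` with the classical
properties whose conductors lie between powers of a given size `d i` (here `d i = |D|_{S_∞}`).

Let `exp G(t)` be the geometric mean of `|L(1/2 + iu)|` with respect to the Poisson probability
density of width `a` centred at `t`, and `Y = (1 + |t|) |D|`.

* If `|L(1/2 + it, π ⊗ χ_D)| > Y^β` and `Y` is large then `G(t) > η log Y`, `η = η(β) > 0`: a large
  value at the centre (`t = 0`) is never isolated among small values.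
* So the Lindelöf bound of the problem follows from `limsup G_D(0) / log |D| ≤ 0`.
* The Lindelöf bound at all points of the critical line is equivalent to `G ≤ ε log Y` for all
  `ε > 0` and all large `Y`.
-/

set_option autoImplicit false

open MeasureTheory

namespace Pool.Agent.Results.MP_21d687_nt.GeometricMeans

/-- The data of an L-function of degree `m` over `ℚ`: the conductor `N`, the archimedean parameters
`mu j` (the factor at infinity is `∏ j, Γ_ℝ (s - mu j)`) and the L-function `f` (continued to the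
complex plane). -/
structure Datum (m : ℕ) where
  N : ℕ
  mu : Fin m → ℂ
  f : ℂ → ℂ

/-- The analytic conductor `C = N ∏ j, (1 + |mu j|)`. -/
noncomputable def Datum.C {m : ℕ} (D : Datum m) : ℝ := D.N * ∏ j, (1 + ‖D.mu j‖)

/-- The classical properties: `N ≥ 1`, `Re (mu j) ≤ 1/2 - δ`, `∑ j, Im (mu j) = 0`, `f` is entire, of
finite order in the strip `-1/4 ≤ Re s ≤ 5/4`, and satisfies the functional equation
`Λ(s) = root N^(1/2-s) conj (Λ(1 - conj s))`, `Λ(s) = f(s) ∏ j, Γ_ℝ (s - mu j)`, with `|root| = 1`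
(divided by the gamma factors of both sides). -/
structure Datum.Ok {m : ℕ} (D : Datum m) (δ : ℝ) : Prop where
  N_pos : 0 < D.N
  gap : ∀ j, (D.mu j).re ≤ 1 / 2 - δ
  im_sum : ∑ j, (D.mu j).im = 0
  entire : Differentiable ℂ D.f
  order : ∃ A : ℝ, ∀ s : ℂ, -1 / 4 ≤ s.re → s.re ≤ 5 / 4 →
    ‖D.f s‖ ≤ Real.exp (A * (1 + |s.im|) ^ A)
  fe : ∃ root : ℂ, ‖root‖ = 1 ∧ ∀ s : ℂ,
    D.f s * ∏ j, (Complex.Gammaℝ (1 - s - (starRingEnd ℂ) (D.mu j)))⁻¹ =
      root * (D.N : ℂ) ^ (1 / 2 - s) * (starRingEnd ℂ) (D.f (1 - (starRingEnd ℂ) s)) *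
        ∏ j, (Complex.Gammaℝ (s - D.mu j))⁻¹

/-- The bound to the right of the critical strip, uniform in the family. -/
def Molteni {ι : Type} {m : ℕ} (D : ι → Datum m) : Prop := ∀ ε : ℝ, 0 < ε → ∃ B : ℝ,
  ∀ (i : ι) (s : ℂ), 1 + ε ≤ s.re → ‖(D i).f s‖ ≤ B * (D i).C ^ ε

/-- The L-functions are bounded above and away from zero in `Re s ≥ κ`, uniformly in the family. -/
def Far {ι : Type} {m : ℕ} (D : ι → Datum m) (κ : ℝ) : Prop := ∃ b : ℝ, 0 < b ∧
  ∀ (i : ι) (s : ℂ), κ ≤ s.re → 1 / b ≤ ‖(D i).f s‖ ∧ ‖(D i).f s‖ ≤ b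

/-- The conductors lie between powers of the sizes `d i ≥ 1`, up to constants. -/
def Comparable {ι : Type} {m : ℕ} (D : ι → Datum m) (d : ι → ℝ) : Prop := ∃ p A K : ℝ, 0 < p ∧
  0 < A ∧ ∀ i, 1 ≤ d i ∧ d i ^ p ≤ K * (D i).C ∧ (D i).C ≤ K * d i ^ A

/-- The logarithm of the geometric mean of `|L|` on the critical line with respect to the Poisson
density of width `a` centred at height `t`. -/
noncomputable def G (a : ℝ) (L : ℂ → ℂ) (t : ℝ) : ℝ :=
  a / Real.pi * ∫ u : ℝ, Real.log ‖L (1 / 2 + u * Complex.I)‖ / (a ^ 2 + (u - t) ^ 2)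

variable {ι : Type}

/-- The conclusion for the L-functions `L i` with sizes `d i` and means of width `a`. -/
structure Conclusion (L : ι → ℂ → ℂ) (d : ι → ℝ) (a : ℝ) : Prop where
  /-- the means exist and are bounded below -/
  lower : ∃ C : ℝ, ∀ (i : ι) (t : ℝ), -C ≤ G a (L i) t ∧
    Integrable fun u : ℝ => Real.log ‖L i (1 / 2 + u * Complex.I)‖ / (a ^ 2 + (u - t) ^ 2)
  /-- small means imply small values, at the centre -/
  centre : ∀ β : ℝ, 0 < β → ∃ η d₀ : ℝ, 0 < η ∧ ∀ i : ι, d₀ ≤ d i →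
    G a (L i) 0 ≤ η * Real.log (d i) → ‖L i (1 / 2)‖ ≤ d i ^ β
  /-- the Lindelöf bound at the centre follows from small means at the centre -/
  bound : (∀ ε : ℝ, 0 < ε → ∃ d₀ : ℝ, ∀ i : ι, d₀ ≤ d i → G a (L i) 0 ≤ ε * Real.log (d i)) →
    ∀ β : ℝ, 0 < β → ∃ C : ℝ, ∀ i : ι, ‖L i (1 / 2)‖ ≤ C * d i ^ β
  /-- small means imply small values, at all heights -/
  small : ∀ β : ℝ, 0 < β → ∃ η Y₀ : ℝ, 0 < η ∧ ∀ (i : ι) (t : ℝ), Y₀ ≤ (1 + |t|) * d i →
    G a (L i) t ≤ η * Real.log ((1 + |t|) * d i) →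
      ‖L i (1 / 2 + t * Complex.I)‖ ≤ ((1 + |t|) * d i) ^ β
  /-- the criterion for the Lindelöf bound at all heights -/
  criterion : (∀ β : ℝ, 0 < β → ∃ C : ℝ, ∀ (i : ι) (t : ℝ),
      ‖L i (1 / 2 + t * Complex.I)‖ ≤ C * ((1 + |t|) * d i) ^ β) ↔
    ∀ ε : ℝ, 0 < ε → ∃ Y₀ : ℝ, ∀ (i : ι) (t : ℝ), Y₀ ≤ (1 + |t|) * d i →
      G a (L i) t ≤ ε * Real.log ((1 + |t|) * d i)

section proofs

open Pool.Agent.W188.GLR Pool.Agent.N799.GL

/-- comparison of the two sizes -/
lemma compare {m : ℕ} {D : ι → Datum m} {d : ι → ℝ} (hc : ∀ i, 1 ≤ (D i).C)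
    (h : Comparable D d) : ∃ p A K : ℝ, 0 < p ∧ 0 < A ∧ 0 ≤ K ∧ ∀ (i : ι) (t : ℝ),
      0 ≤ Real.log ((1 + |t|) * d i) ∧ 0 ≤ Real.log ((1 + |t|) * (D i).C) ∧
      p * Real.log ((1 + |t|) * d i) ≤ Real.log ((1 + |t|) * (D i).C) + K ∧
      Real.log ((1 + |t|) * (D i).C) ≤ A * Real.log ((1 + |t|) * d i) + K := by
  obtain ⟨p, A, K, hp, hA, h⟩ := h
  refine ⟨min p 1, max A 1, Real.log (max K 1), lt_min hp one_pos,
    lt_max_of_lt_right one_pos, Real.log_nonneg (le_max_right _ _), fun i t => ?_⟩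
  obtain ⟨h1, h2, h3⟩ := h i
  have ht : 1 ≤ 1 + |t| := by linarith [abs_nonneg t]
  have hlt := Real.log_nonneg ht
  have hld := Real.log_nonneg h1
  have hlc := Real.log_nonneg (hc i)
  have hd0 : 0 < d i := by linarith
  have hC0 : 0 < (D i).C := one_pos.trans_le (hc i)
  rw [Real.log_mul (by linarith) hd0.ne', Real.log_mul (by linarith) hC0.ne']
  have hK0 : 0 < max K 1 := lt_max_of_lt_right one_pos
  have h4 : p * Real.log (d i) ≤ Real.log (max K 1) + Real.log (D i).C := by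
    rw [← Real.log_rpow hd0, ← Real.log_mul hK0.ne' hC0.ne']
    refine Real.log_le_log (Real.rpow_pos_of_pos hd0 _) (h2.trans ?_)
    gcongr
    exact le_max_left _ _
  have h5 : Real.log (D i).C ≤ Real.log (max K 1) + A * Real.log (d i) := by
    rw [← Real.log_rpow hd0, ← Real.log_mul hK0.ne' (Real.rpow_pos_of_pos hd0 _).ne']
    refine Real.log_le_log hC0 (h3.trans ?_)
    gcongr
    exact le_max_left _ _
  refine ⟨by positivity, by positivity, ?_, ?_⟩
  · have a1 : min p 1 * Real.log (1 + |t|) ≤ 1 * Real.log (1 + |t|) := by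
      gcongr; exact min_le_right _ _
    have a2 : min p 1 * Real.log (d i) ≤ p * Real.log (d i) := by
      gcongr; exact min_le_left _ _
    linarith
  · have a1 : 1 * Real.log (1 + |t|) ≤ max A 1 * Real.log (1 + |t|) := by
      gcongr; exact le_max_right _ _
    have a2 : A * Real.log (d i) ≤ max A 1 * Real.log (d i) := by
      gcongr; exact le_max_left _ _
    linarith

theorem conclusion_of {m : ℕ} {D : ι → Datum m} {d : ι → ℝ} {δ a : ℝ} (hm : 1 ≤ m) (hδ : 0 < δ)
    (hD : ∀ i, (D i).Ok δ) (hM : Molteni D) (ha : 1 / 2 ≤ a)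
    (hfar : ∃ b : ℝ, 0 < b ∧ ∀ (i : ι) (s : ℂ), 1 / 2 + a ≤ s.re →
      1 / b ≤ ‖(D i).f s‖ ∧ ‖(D i).f s‖ ≤ b) (hd : Comparable D d) :
    Conclusion (fun i => (D i).f) d a := by
  have H := Pool.Agent.W188.GLR.GLData.of_gl hm hδ
      (fun i => (hD i).N_pos) (fun i => (hD i).gap) (fun i => (hD i).im_sum)
      (fun i => (hD i).entire) (fun i => (hD i).order) (fun i => (hD i).fe) hM
  obtain ⟨b, hb, hf⟩ := hfar
  have hπ := Real.pi_pos
  have ha0 : 0 < a := by linarith
  have hc : ∀ i, 1 ≤ (D i).C := fun i => H.C1 i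
  obtain ⟨p, A, K, hp, hA, hK, hcmp⟩ := compare hc hd
  have hd1 : ∀ i, 1 ≤ d i := fun i => by
    obtain ⟨_, _, _, _, _, h⟩ := hd
    exact (h i).1
  have hX0 : ∀ i (t : ℝ), 0 < (1 + |t|) * (D i).C := fun i t => by
    have := hc i
    positivity
  have hY0 : ∀ i (t : ℝ), 0 < (1 + |t|) * d i := fun i t => by
    have := hd1 i
    positivity
  have e1 : ∀ (i : ι) (t c : ℝ), G a (D i).f t ≤ c ↔
      N804.GM.PM a (D i).f t ≤ Real.pi / a * c := by
    intro i t c
    have : G a (D i).f t = a / Real.pi * N804.GM.PM a (D i).f t := rfl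
    rw [this]
    constructor
    · intro h
      calc N804.GM.PM a (D i).f t = Real.pi / a * (a / Real.pi * N804.GM.PM a (D i).f t) := by
            field_simp
        _ ≤ _ := by gcongr
    · intro h
      calc a / Real.pi * N804.GM.PM a (D i).f t ≤ a / Real.pi * (Real.pi / a * c) := by gcongr
        _ = c := by field_simp
  -- small means imply small values
  have hsmall : ∀ β : ℝ, 0 < β → ∃ η Y₀ : ℝ, 0 < η ∧ ∀ (i : ι) (t : ℝ), Y₀ ≤ (1 + |t|) * d i →
      G a (D i).f t ≤ η * Real.log ((1 + |t|) * d i) →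
      ‖(D i).f (1 / 2 + t * Complex.I)‖ ≤ ((1 + |t|) * d i) ^ β := by
    intro β hβ
    obtain ⟨η, X₀, hη, h⟩ := N804.GM.fam_loc N804.GM.gv N804.GM.gr ι m _ _ _ _ δ a b H ha hb hf
      (β / (2 * A)) (by positivity)
    set l₀ : ℝ := max (2 * K / p) (max ((Real.log (max X₀ 1) + K) / p) (K / A)) with hl₀
    refine ⟨a / Real.pi * (η * p / 2), Real.exp l₀, by positivity, fun i t hY hG => ?_⟩
    obtain ⟨c1, c2, c3, c4⟩ := hcmp i t
    have hl : l₀ ≤ Real.log ((1 + |t|) * d i) := by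
      rw [Real.le_log_iff_exp_le (hY0 i t)]
      exact hY
    have l1 : 2 * K / p ≤ Real.log ((1 + |t|) * d i) := (le_max_left _ _).trans hl
    have l2 : (Real.log (max X₀ 1) + K) / p ≤ Real.log ((1 + |t|) * d i) :=
      ((le_max_left _ _).trans (le_max_right _ _)).trans hl
    have l3 : K / A ≤ Real.log ((1 + |t|) * d i) :=
      ((le_max_right _ _).trans (le_max_right _ _)).trans hl
    rw [div_le_iff₀ hp] at l1 l2
    rw [div_le_iff₀ hA] at l3
    have k1 : Real.log (max X₀ 1) ≤ Real.log ((1 + |t|) * (D i).C) := by linarith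
    have k2 : X₀ ≤ (1 + |t|) * (D i).C := by
      rw [Real.log_le_log_iff (by positivity) (hX0 i t)] at k1
      exact (le_max_left _ _).trans k1
    have k3 : p / 2 * Real.log ((1 + |t|) * d i) ≤ Real.log ((1 + |t|) * (D i).C) := by
      nlinarith
    have k4 := h i t k2 (by
      rw [e1] at hG
      refine hG.trans ?_
      have : Real.pi / a * (a / Real.pi * (η * p / 2) * Real.log ((1 + |t|) * d i)) =
          η * (p / 2 * Real.log ((1 + |t|) * d i)) := by field_simp
      rw [this]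
      exact mul_le_mul_of_nonneg_left k3 hη.le)
    refine k4.trans ?_
    have h0 := hX0 i t
    rw [Real.rpow_def_of_pos (hY0 i t)]
    calc ((1 + |t|) * ((D i).N * ∏ j, (1 + ‖(D i).mu j‖))) ^ (β / (2 * A)) =
          Real.exp (Real.log ((1 + |t|) * (D i).C) * (β / (2 * A))) :=
          Real.rpow_def_of_pos h0 _
      _ ≤ _ := by
        refine Real.exp_le_exp.2 ?_
        have g1 : Real.log ((1 + |t|) * (D i).C) ≤ 2 * A * Real.log ((1 + |t|) * d i) := by
          linarith
        calc Real.log ((1 + |t|) * (D i).C) * (β / (2 * A)) ≤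
              2 * A * Real.log ((1 + |t|) * d i) * (β / (2 * A)) := by gcongr
          _ = _ := by field_simp
  have hcentre : ∀ β : ℝ, 0 < β → ∃ η d₀ : ℝ, 0 < η ∧ ∀ i : ι, d₀ ≤ d i →
      G a (D i).f 0 ≤ η * Real.log (d i) → ‖(D i).f (1 / 2)‖ ≤ d i ^ β := by
    intro β hβ
    obtain ⟨η, Y₀, hη, h⟩ := hsmall β hβ
    refine ⟨η, Y₀, hη, fun i hi hG => ?_⟩
    have := h i 0 (by simpa using hi) (by simpa using hG)
    simpa using this
  -- bounded conductors
  have hbdd : ∀ Y : ℝ, ∃ C : ℝ, 0 ≤ C ∧ ∀ (i : ι) (t : ℝ), (1 + |t|) * d i ≤ Y →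
      ‖(D i).f (1 / 2 + t * Complex.I)‖ ≤ C := by
    intro Y
    obtain ⟨C, hC, h⟩ := N804.GM.cvx ι m _ _ _ _ _ H 1 one_pos
    obtain ⟨C₂, hC₂⟩ : ∃ C₂ : ℝ, 0 ≤ C₂ ∧ ∀ (i : ι) (t : ℝ),
        la (fun i => (D i).N) (fun i => (D i).mu) (i, t) ≤
          m * Real.log ((1 + |t|) * (D i).C) + C₂ := by
      refine ⟨m * Real.log 1 + Real.log 1, by simp, fun i t => ?_⟩
      have e : la (fun i => (D i).N) (fun i => (D i).mu) (i, t) = Real.log (D i).N +
          ∑ j, Real.log (1 + ‖(D i).mu j - t * Complex.I‖) := log_QL (hD i).N_pos _ t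
      have e2 : Real.log (D i).C = Real.log (D i).N + ∑ j, Real.log (1 + ‖(D i).mu j‖) := by
        unfold Datum.C
        have h1 : ∀ j ∈ Finset.univ, (1 + ‖(D i).mu j‖) ≠ 0 := fun j _ => by positivity
        have h2 : ((D i).N : ℝ) ≠ 0 := by exact_mod_cast (hD i).N_pos.ne'
        rw [Real.log_mul h2 (Finset.prod_ne_zero_iff.2 h1), Real.log_prod h1]
      have e3 : ∀ j, Real.log (1 + ‖(D i).mu j - t * Complex.I‖) ≤
          Real.log (1 + ‖(D i).mu j‖) + Real.log (1 + |t|) := by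
        intro j
        rw [← Real.log_mul (by positivity) (by positivity)]
        refine Real.log_le_log (by positivity) ?_
        have : ‖(D i).mu j - t * Complex.I‖ ≤ ‖(D i).mu j‖ + |t| := by
          refine (norm_sub_le _ _).trans (le_of_eq ?_)
          rw [norm_mul, Complex.norm_I, mul_one, Complex.norm_real, Real.norm_eq_abs]
        nlinarith [norm_nonneg ((D i).mu j), abs_nonneg t,
          mul_nonneg (norm_nonneg ((D i).mu j)) (abs_nonneg t)]
      have e4 : ∑ j, Real.log (1 + ‖(D i).mu j - t * Complex.I‖) ≤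
          ∑ j, Real.log (1 + ‖(D i).mu j‖) + m * Real.log (1 + |t|) := by
        refine (Finset.sum_le_sum fun j _ => e3 j).trans (le_of_eq ?_)
        rw [Finset.sum_add_distrib]
        simp
      have ht : 1 ≤ 1 + |t| := by linarith [abs_nonneg t]
      have hC0 : 0 < (D i).C := one_pos.trans_le (hc i)
      rw [e, Real.log_mul (by linarith) hC0.ne']
      have hlc := Real.log_nonneg (hc i)
      have hlt := Real.log_nonneg ht
      have hm1 : (1 : ℝ) ≤ m := by exact_mod_cast hm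
      simp only [Real.log_one, mul_zero, add_zero]
      nlinarith
    obtain ⟨hC₂0, hC₂⟩ := hC₂
    refine ⟨Real.exp ((1 / 4 + 1) * (m * (A * |Real.log (max Y 1)| + K) + C₂) + C),
      (Real.exp_pos _).le, fun i t hY => ?_⟩
    by_cases hz : (D i).f (1 / 2 + t * Complex.I) = 0
    · rw [hz, norm_zero]; positivity
    obtain ⟨c1, c2, c3, c4⟩ := hcmp i t
    have g1 : Real.log ((1 + |t|) * d i) ≤ |Real.log (max Y 1)| := by
      refine (Real.log_le_log (hY0 i t) (hY.trans (le_max_left _ _))).trans (le_abs_self _)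
    calc ‖(D i).f (1 / 2 + t * Complex.I)‖ =
          Real.exp (Real.log ‖(D i).f (1 / 2 + t * Complex.I)‖) :=
          (Real.exp_log (norm_pos_iff.2 hz)).symm
      _ ≤ _ := by
        refine Real.exp_le_exp.2 ((h i t).trans ?_)
        have g2 := hC₂ i t
        have g3 : Real.log ((1 + |t|) * (D i).C) ≤ A * |Real.log (max Y 1)| + K :=
          c4.trans (by gcongr)
        have g4 : (m : ℝ) * Real.log ((1 + |t|) * (D i).C) ≤
          m * (A * |Real.log (max Y 1)| + K) := by gcongr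
        linarith
  refine ⟨?_, hcentre, fun hall β hβ => ?_, hsmall, ?_, ?_⟩
  · obtain ⟨C, hC, h⟩ := N804.GM.gv ι m _ _ _ _ δ a b H ha hb hf 0
    refine ⟨a / Real.pi * C, fun i t => ⟨?_, (h i t).1⟩⟩
    have h1 := (h i t).2 ∅ (by simp)
    rw [Finset.sum_empty] at h1
    have h2 : 0 ≤ N804.GM.PM a (D i).f t + C := by
      by_contra hcon
      have := mul_neg_of_pos_of_neg hC (not_le.1 hcon)
      linarith
    have h3 : G a (D i).f t = a / Real.pi * N804.GM.PM a (D i).f t := rfl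
    rw [h3, ← sub_nonneg]
    have : a / Real.pi * N804.GM.PM a (D i).f t - -(a / Real.pi * C) =
        a / Real.pi * (N804.GM.PM a (D i).f t + C) := by ring
    rw [this]
    positivity
  · obtain ⟨η, d₀, hη, h1⟩ := hcentre β hβ
    obtain ⟨d₁, h2⟩ := hall η hη
    obtain ⟨C, hC, h3⟩ := hbdd (max d₀ d₁)
    refine ⟨C + 1, fun i => ?_⟩
    have hpow : 1 ≤ d i ^ β := Real.one_le_rpow (hd1 i) hβ.le
    by_cases hi : d i ≤ max d₀ d₁
    · have h4 := h3 i 0 (by simpa using hi)
      have h5 : ‖(D i).f (1 / 2)‖ ≤ C := by simpa using h4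
      nlinarith
    · push Not at hi
      have h4 := h1 i ((le_max_left _ _).trans hi.le) (h2 i ((le_max_right _ _).trans hi.le))
      have h5 : 0 ≤ C * d i ^ β := by positivity
      show ‖(D i).f (1 / 2)‖ ≤ _
      linarith
  · intro h ε hε
    have hX : ∀ β : ℝ, 0 < β → ∃ C : ℝ, ∀ (i : ι) (t : ℝ),
        ‖(D i).f (1 / 2 + t * Complex.I)‖ ≤ C * ((1 + |t|) * (D i).C) ^ β := by
      intro β hβ
      obtain ⟨C, hC⟩ := h (β * p) (by positivity)
      refine ⟨|C| * Real.exp (β * K), fun i t => (hC i t).trans ?_⟩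
      obtain ⟨c1, c2, c3, c4⟩ := hcmp i t
      rw [mul_assoc]
      refine (mul_le_mul_of_nonneg_right (le_abs_self C)
        (Real.rpow_nonneg (hY0 i t).le _)).trans ?_
      refine mul_le_mul_of_nonneg_left ?_ (abs_nonneg C)
      rw [Real.rpow_def_of_pos (hY0 i t), Real.rpow_def_of_pos (hX0 i t), ← Real.exp_add]
      refine Real.exp_le_exp.2 ?_
      nlinarith
    obtain ⟨X₀, h1⟩ := N804.GM.gc ι m _ _ _ _ δ a H ha0 hX (Real.pi / a * (ε / (2 * A)))
      (by positivity)
    set l₀ : ℝ := max ((Real.log (max X₀ 1) + K) / p) (K / A) with hl₀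
    refine ⟨Real.exp l₀, fun i t hY => ?_⟩
    obtain ⟨c1, c2, c3, c4⟩ := hcmp i t
    have hl : l₀ ≤ Real.log ((1 + |t|) * d i) := by
      rw [Real.le_log_iff_exp_le (hY0 i t)]
      exact hY
    have l2 : (Real.log (max X₀ 1) + K) / p ≤ Real.log ((1 + |t|) * d i) :=
      (le_max_left _ _).trans hl
    have l3 : K / A ≤ Real.log ((1 + |t|) * d i) := (le_max_right _ _).trans hl
    rw [div_le_iff₀ hp] at l2
    rw [div_le_iff₀ hA] at l3
    have k1 : Real.log (max X₀ 1) ≤ Real.log ((1 + |t|) * (D i).C) := by linarith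
    have k2 : X₀ ≤ (1 + |t|) * (D i).C := by
      rw [Real.log_le_log_iff (by positivity) (hX0 i t)] at k1
      exact (le_max_left _ _).trans k1
    refine (e1 _ _ _).2 ((h1 i t k2).trans ?_)
    have g1 : Real.log ((1 + |t|) * (D i).C) ≤ 2 * A * Real.log ((1 + |t|) * d i) := by
      linarith
    calc Real.pi / a * (ε / (2 * A)) * Real.log ((1 + |t|) * (D i).C) ≤
          Real.pi / a * (ε / (2 * A)) * (2 * A * Real.log ((1 + |t|) * d i)) :=
          mul_le_mul_of_nonneg_left g1 (by positivity)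
      _ = _ := by field_simp
  · intro h β hβ
    obtain ⟨η, Y₀, hη, h1⟩ := hsmall β hβ
    obtain ⟨Y₁, h2⟩ := h η hη
    obtain ⟨C, hC, h3⟩ := hbdd (max Y₀ Y₁)
    refine ⟨C + 1, fun i t => ?_⟩
    have hY1 : 1 ≤ (1 + |t|) * d i := by
      have := hd1 i
      nlinarith [abs_nonneg t]
    have hpow : 1 ≤ ((1 + |t|) * d i) ^ β := Real.one_le_rpow hY1 hβ.le
    by_cases hi : (1 + |t|) * d i ≤ max Y₀ Y₁
    · have h4 := h3 i t hi
      show ‖(D i).f (1 / 2 + t * Complex.I)‖ ≤ _
      nlinarith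
    · push Not at hi
      have h4 := h1 i t ((le_max_left _ _).trans hi.le) (h2 i t ((le_max_right _ _).trans hi.le))
      have h5 : 0 ≤ C * ((1 + |t|) * d i) ^ β := by positivity
      show ‖(D i).f (1 / 2 + t * Complex.I)‖ ≤ _
      linarith

end proofs

/-- The theorem for families of L-functions of degree `m` with conductors between powers of the
sizes `d i`. -/
theorem result (m : ℕ) (δ κ a : ℝ) (D : ι → Datum m) (d : ι → ℝ) (hm : 1 ≤ m) (hδ : 0 < δ)
    (hκ : 1 ≤ κ) (ha : κ - 1 / 2 ≤ a) (hD : ∀ i, (D i).Ok δ) (hM : Molteni D) (hF : Far D κ)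
    (hd : Comparable D d) : Conclusion (fun i => (D i).f) d a :=
  conclusion_of hm hδ hD hM (by linarith) (by
    obtain ⟨b, hb, h⟩ := hF
    exact ⟨b, hb, fun i s hs => h i s (by linarith)⟩) hd

end Pool.Agent.Results.MP_21d687_nt.GeometricMeans
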