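import Pool.Agent.N60.MV.Twist
import Pool.Agent.Results.MP_21d687_nt.AlmostAllTwists

/-!
MP_21d687_nt: the Lindelof bound for ALL quadratic twists near the values of multiplicative functions.

Let `f` be Euler's function, the sum of the divisors, or any positive multiplicative function of at most polynomial growth with
`f p ≤ M p` for the large primes `p` and different values at different large primes. Let `α > 0`, `q ≥ 1`, `κ ≥ 0` and `β > 0`
satisfy `q max (0, 1 - 2 β / 2^n) + κ < 1`. Then for all `u ≤ N` but `N / (log N)^U` EVERY squarefree `d` (positive or negative)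
with `| |d| - α f(u)^q | ≤ f(u)^κ` satisfies `|L(E_d/K, 1 + i t)| ≤ |d|^β (2 + |t|)^B` for all real `t`. So for every `β > 0` the
bound with the exponent `β` holds for all the twists near `φ(u)` (`q = 1`, `κ < 2 β / 2^n`), for almost all `u`; and for every
exponent `β` smaller than that of the convexity bound, `2^(n-1)`, but near it, for all the twists near `φ(u)^q` with a large `q`.

Here `K` is a number field of degree `2^n` generated by square roots of integers, and `E_d : y^2 = x^3 + a d^2 x + b d^3`, as in the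
hand-in `AlmostAllTwists`, the mean value of which is used. The values of `f` are in general taken with very large
multiplicities, and they are sparse in the sense that the number of those below `x` is `o(x)`; the result does not
follow from the size of the exceptional sets.
-/

set_option autoImplicit false

namespace Pool.Agent.Results.MP_21d687_nt.MultiplicativeValues

open Complex NumberField
open Pool.Agent.Y19.QT (Fam TwistsModular Indep IsLFunK sqf mem_sqf)
open Pool.Agent.N733.TG (LM Expanding lm_totient lm_sigma expanding_pow)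

/-- **The Lindelof bound near the values of multiplicative functions.** Let `E : y^2 = x^3 + a x + b` have `j = 0`, `j = 1728`, or be
a twist of `X_0(11)`, `X_0(14)`, or let all twists of `E` over `Q` be modular; `K` any multiquadratic field of degree `2^n`. Let
`F d` be the `L`-function of `E_d` over `K` (centre `s = 1`, without the factors at finitely many places), for `d` squarefree. There
is `B`, depending only on the data, such that for all `β > 0`, all `f` with `LM f`, all `G` with `Expanding G q`, all `κ ≥ 0` with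
`q max (0, 1 - 2 β / 2^n) + κ < 1` and all `U`: for all large `N`, for all `u ≤ N` but at most `N / (log N)^U`, EVERY squarefree `d`
with `| |d| - G (f u) | ≤ f(u)^κ` satisfies `|F_d(1 + i t)| ≤ |d|^β (2 + |t|)^B` for all real `t`. Euler's function and the sum of the
divisors are examples of such functions `f`, and `α v^q` with `α > 0`, `q ≥ 1` is an example of `G`. -/
theorem result (a b : ℤ) (hab : 4 * a ^ 3 + 27 * b ^ 2 ≠ 0) (h : Fam a b ∨ TwistsModular a b)
    (n : ℕ) (e : Fin n → ℤ) (he : Indep e) (K : Type) [Field K] [NumberField K] (x : Fin n → K)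
    (hx : ∀ i, x i ^ 2 = (e i : K)) (hK : IntermediateField.adjoin ℚ (Set.range x) = ⊤) :
    (∀ d : ℤ, Squarefree d → ∃! F : ℂ → ℂ, IsLFunK K (a * d ^ 2) (b * d ^ 3) (∏ i, e i) F) ∧
    (∀ F : ℤ → ℂ → ℂ, (∀ d : ℤ, Squarefree d → IsLFunK K (a * d ^ 2) (b * d ^ 3) (∏ i, e i) (F d)) →
      ∃ B : ℕ, ∀ β : ℝ, 0 < β → ∀ f : ℕ → ℕ, LM f → ∀ (G : ℕ → ℝ) (q : ℝ), Expanding G q → ∀ κ : ℝ, 0 ≤ κ →
        q * max 0 (1 - 2 * β / 2 ^ n) + κ < 1 → ∀ U : ℕ, ∃ N₀ : ℕ, ∀ N : ℕ, N₀ ≤ N →
          ({u : ℕ | 1 ≤ u ∧ u ≤ N ∧ ¬ ∀ d : ℤ, Squarefree d → |(|d| : ℝ) - G (f u)| ≤ (f u : ℝ) ^ κ →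
            ∀ t : ℝ, ‖F d (1 + t * I)‖ ≤ |(d : ℝ)| ^ β * (2 + |t|) ^ B}.ncard : ℝ) ≤ N / Real.log N ^ U) ∧
    (LM Nat.totient ∧ LM (fun m => ∑ d ∈ m.divisors, d)) ∧
    ∀ α q : ℝ, 0 < α → 1 ≤ q → Expanding (fun v => α * (v : ℝ) ^ q) q := by
  obtain ⟨h1, h2⟩ := Pool.Agent.Results.MP_21d687_nt.AlmostAllTwists.result a b hab h n e he K x hx hK
  refine ⟨h1, fun F hF => ?_, ⟨lm_totient, lm_sigma⟩, fun α q hα hq => expanding_pow hα hq⟩
  obtain ⟨⟨C, A, B, hmean, -⟩, -⟩ := h2 F hF
  refine ⟨B * 2 ^ n, fun β hβ f hf G q hG κ hκ hs U => ?_⟩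
  have h2n : (0 : ℝ) < 2 ^ n := by positivity
  have hp : (0 : ℝ) < 2 / 2 ^ n := by positivity
  have hsq : ∀ (X : ℕ) (d : ℤ), d ∈ sqf X ↔ |d| ≤ X ∧ Squarefree d := fun X d => mem_sqf
  have hB : (B : ℝ) ≤ ((B * 2 ^ n : ℕ) : ℝ) * (2 / 2 ^ n) := by
    have e1 : ((B * 2 ^ n : ℕ) : ℝ) * (2 / 2 ^ n) = 2 * B := by
      push_cast
      field_simp
    rw [e1]
    have : (0 : ℝ) ≤ B := Nat.cast_nonneg _
    linarith
  have hs' : q * max 0 (1 - 2 / 2 ^ n * β) + κ < 1 := by
    have e1 : (2 : ℝ) / 2 ^ n * β = 2 * β / 2 ^ n := by ring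
    rw [e1]
    exact hs
  have hmain := Pool.Agent.N60.MV.keep_mean (Lam := fun d t => ‖F d (1 + t * I)‖) (fun _ _ => norm_nonneg _)
    (Sq := fun d => Squarefree d) (sq := sqf) hsq hp hB hmean hβ hf hG hκ hs' U
  exact hmain

end Pool.Agent.Results.MP_21d687_nt.MultiplicativeValues
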